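import Mathlib
import Pool.Agent.Helper9.TN.Defs
import Pool.Agent.Helper9.PrimesThree
import Pool.Agent.Helper9.CountCRT

/-!
# Primes in the progression 1 mod e: the upper bound sieve (module TN-3a)
-/

set_option autoImplicit false

open Finset
open scoped Nat

namespace Pool.Agent.TN

open Pool.Agent.Helper9.Selberg Pool.Agent.Helper9.ChiSum Pool.Agent.Helper9.ChiHarm
  Pool.Agent.Helper9.GLower Pool.Agent.Helper9.PrimesThree

/-- The constant density. -/
def one1 : ℕ → ℕ := fun _ => 1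

theorem TH_insert' {S : Finset ℕ} {p : ℕ} (hp : p.Prime) (hpS : p ∉ S) (x : ℕ) :
    T H (insert p S) x ≤ T H S x + 1 / ((p : ℝ) - 1) * T H S (x / p) := by
  have h1 := T_split H hp hpS x
  have h2 : ∑ k ∈ K (insert p S) (x / p), H (p * k) =
      1 / (p : ℝ) * T H (insert p S) (x / p) := by
    unfold T
    rw [Finset.mul_sum]
    apply Finset.sum_congr rfl
    intro k _
    unfold H
    push_cast
    rw [div_mul_div_comm, one_mul]
  have h3 := TH_insert hp hpS (x / p)
  have hp2 : (2 : ℝ) ≤ p := by exact_mod_cast hp.two_le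
  have h4 : 1 / (p : ℝ) * T H (insert p S) (x / p) ≤
      1 / (p : ℝ) * ((1 - 1 / (p : ℝ))⁻¹ * T H S (x / p)) :=
    mul_le_mul_of_nonneg_left h3 (by positivity)
  have h5 : 1 / (p : ℝ) * (1 - 1 / (p : ℝ))⁻¹ = 1 / ((p : ℝ) - 1) := by
    have e0 : (p : ℝ) ≠ 0 := by linarith
    have e1 : (p : ℝ) - 1 ≠ 0 := by linarith
    have e2 : 1 - 1 / (p : ℝ) = ((p : ℝ) - 1) / p := by field_simp
    rw [e2, inv_div]
    field_simp
  rw [h1, h2]
  rw [← mul_assoc, h5] at h4
  linarith

theorem TH_le_G (S : Finset ℕ) (hS : ∀ p ∈ S, p.Prime) :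
    ∀ x, T H S x ≤ G S one1 x := by
  classical
  induction S using Finset.induction_on with
  | empty =>
    intro x
    rcases Nat.eq_zero_or_pos x with h | h
    · subst h
      rw [G_zero _ _ (by simp)]
      unfold T K
      simp
    · have e1 : K ∅ x = {1} := by
        ext k
        rw [mem_K, Finset.mem_singleton, Finset.subset_empty]
        constructor
        · rintro ⟨⟨h1, _⟩, h3⟩
          rw [Nat.primeFactors_eq_empty] at h3
          omega
        · rintro rfl
          simp; omega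
      have e2 : fam (∅ : Finset ℕ) x = {∅} := by
        ext D
        rw [mem_fam, Finset.mem_singleton, Finset.subset_empty]
        constructor
        · exact fun h => h.1
        · rintro rfl
          simp; omega
      unfold T G
      rw [e1, e2, Finset.sum_singleton, Finset.sum_singleton]
      unfold H g
      simp
  | insert p S hpS ih =>
    intro x
    have hp : p.Prime := hS p (Finset.mem_insert_self _ _)
    have ih' := ih (fun q hq => hS q (Finset.mem_insert_of_mem hq))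
    rw [G_insert one1 hp hpS]
    have h1 := TH_insert' hp hpS x
    have hp2 : (2 : ℝ) ≤ p := by exact_mod_cast hp.two_le
    have h2 : ((one1 p : ℕ) : ℝ) / ((p : ℝ) - (one1 p : ℕ)) = 1 / ((p : ℝ) - 1) := by
      unfold one1; push_cast; rfl
    rw [h2]
    have h3 : 0 ≤ 1 / ((p : ℝ) - 1) := div_nonneg (by norm_num) (by linarith)
    have h4 := mul_le_mul_of_nonneg_left (ih' (x / p)) h3
    have h5 := ih' x
    linarith

/-- Removing primes from the sieving set. -/
theorem G_remove (S Q : Finset ℕ) (hS : ∀ p ∈ S, p.Prime) (hQ : ∀ q ∈ Q, q.Prime)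
    (hd : Disjoint Q S) (x : ℕ) :
    G (Q ∪ S) one1 x ≤ (∏ q ∈ Q, (1 - 1 / (q : ℝ))⁻¹) * G S one1 x := by
  classical
  induction Q using Finset.induction_on with
  | empty => simp
  | insert p Q hpQ ih =>
    have hp : p.Prime := hQ p (Finset.mem_insert_self _ _)
    rw [Finset.disjoint_insert_left] at hd
    have ih' := ih (fun q hq => hQ q (Finset.mem_insert_of_mem hq)) hd.2
    have h1 : p ∉ Q ∪ S := by
      rw [Finset.mem_union, not_or]; exact ⟨hpQ, hd.1⟩
    have hall : ∀ q ∈ Q ∪ S, q.Prime := by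
      intro q hq
      rw [Finset.mem_union] at hq
      rcases hq with h | h
      · exact hQ q (Finset.mem_insert_of_mem h)
      · exact hS q h
    rw [Finset.insert_union, Finset.prod_insert hpQ, G_insert one1 hp h1]
    have h2 : G (Q ∪ S) one1 (x / p) ≤ G (Q ∪ S) one1 x :=
      G_mono (fun q _ => le_refl 1) (fun q hq => (hall q hq).one_lt) (Nat.div_le_self _ _)
    have hp2 : (2 : ℝ) ≤ p := by exact_mod_cast hp.two_le
    have h3 : ((one1 p : ℕ) : ℝ) / ((p : ℝ) - (one1 p : ℕ)) = 1 / ((p : ℝ) - 1) := by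
      unfold one1; push_cast; rfl
    rw [h3]
    have h4 : 0 ≤ 1 / ((p : ℝ) - 1) := div_nonneg (by norm_num) (by linarith)
    have h5 := mul_le_mul_of_nonneg_left h2 h4
    have e : (1 - 1 / (p : ℝ))⁻¹ = 1 + 1 / ((p : ℝ) - 1) := by
      have h4 : (p : ℝ) - 1 ≠ 0 := by linarith
      have h5 : (p : ℝ) ≠ 0 := by linarith
      have h6 : 1 - 1 / (p : ℝ) = ((p : ℝ) - 1) / p := by field_simp
      rw [h6, inv_div]
      field_simp
      ring
    have h6 : 0 ≤ (1 - 1 / (p : ℝ))⁻¹ := by rw [e]; linarith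
    calc G (Q ∪ S) one1 x + 1 / ((p : ℝ) - 1) * G (Q ∪ S) one1 (x / p)
        ≤ G (Q ∪ S) one1 x + 1 / ((p : ℝ) - 1) * G (Q ∪ S) one1 x := by linarith
      _ = (1 - 1 / (p : ℝ))⁻¹ * G (Q ∪ S) one1 x := by rw [e]; ring
      _ ≤ (1 - 1 / (p : ℝ))⁻¹ * ((∏ q ∈ Q, (1 - 1 / (q : ℝ))⁻¹) * G S one1 x) :=
          mul_le_mul_of_nonneg_left ih' h6
      _ = _ := by ring

theorem prod_inv_le (e : ℕ) (he : 1 ≤ e) (Q : Finset ℕ) (hQ : Q ⊆ e.primeFactors) :
    ∏ q ∈ Q, (1 - 1 / (q : ℝ))⁻¹ ≤ (e : ℝ) / φ e := by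
  have h1 : ∀ q ∈ e.primeFactors, 1 ≤ (1 - 1 / (q : ℝ))⁻¹ := by
    intro q hq
    have hq2 : (2 : ℝ) ≤ q := by exact_mod_cast (Nat.prime_of_mem_primeFactors hq).two_le
    have h2 : 1 / (q : ℝ) < 1 := by
      rw [div_lt_one (by positivity)]; linarith
    have h3 : 0 < 1 / (q : ℝ) := by positivity
    rw [one_le_inv₀ (by linarith)]
    linarith
  have h2 : ∏ q ∈ Q, (1 - 1 / (q : ℝ))⁻¹ ≤ ∏ q ∈ e.primeFactors, (1 - 1 / (q : ℝ))⁻¹ := by
    rw [← Finset.prod_sdiff hQ]
    have h3 : 1 ≤ ∏ q ∈ e.primeFactors \ Q, (1 - 1 / (q : ℝ))⁻¹ := by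
      apply Finset.one_le_prod
      intro q hq
      exact h1 q (Finset.mem_sdiff.1 hq).1
    have h4 : 0 ≤ ∏ q ∈ Q, (1 - 1 / (q : ℝ))⁻¹ := by
      apply Finset.prod_nonneg
      intro q hq
      linarith [h1 q (hQ hq)]
    nlinarith
  refine h2.trans (le_of_eq ?_)
  have h5 := Nat.totient_eq_mul_prod_factors e
  have h6 : (φ e : ℝ) = e * ∏ p ∈ e.primeFactors, (1 - (p : ℝ)⁻¹) := by
    have := congrArg (fun z : ℚ => (z : ℝ)) h5
    push_cast at this
    exact this
  have he' : (e : ℝ) ≠ 0 := by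
    have : e ≠ 0 := by omega
    exact_mod_cast this
  rw [h6, Finset.prod_inv_distrib]
  simp only [one_div]
  rw [div_mul_eq_div_div, div_self he', one_div]


/-- The sieving set: the primes up to `R` not dividing `e`. -/
def PS (e R : ℕ) : Finset ℕ := (range (R + 1)).filter (fun p => p.Prime ∧ ¬ p ∣ e)

theorem mem_PS {e R p : ℕ} : p ∈ PS e R ↔ p ≤ R ∧ p.Prime ∧ ¬ p ∣ e := by
  unfold PS
  rw [Finset.mem_filter, Finset.mem_range]
  constructor
  · rintro ⟨h1, h2⟩; exact ⟨by omega, h2⟩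
  · rintro ⟨h1, h2⟩; exact ⟨by omega, h2⟩

theorem log_le_G (e R : ℕ) (he : 1 ≤ e) :
    Real.log (R + 1) ≤ (e : ℝ) / φ e * G (PS e R) one1 R := by
  classical
  set Q : Finset ℕ := (range (R + 1)).filter (fun p => p.Prime ∧ p ∣ e) with hQdef
  have hall : Q ∪ PS e R = (range (R + 1)).filter Nat.Prime := by
    ext p
    rw [Finset.mem_union, hQdef, mem_PS, Finset.mem_filter, Finset.mem_filter, Finset.mem_range]
    constructor
    · rintro (⟨h1, h2, _⟩ | ⟨h1, h2, _⟩)
      · exact ⟨h1, h2⟩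
      · exact ⟨by omega, h2⟩
    · rintro ⟨h1, h2⟩
      by_cases h3 : p ∣ e
      · exact Or.inl ⟨h1, h2, h3⟩
      · exact Or.inr ⟨by omega, h2, h3⟩
  have hd : Disjoint Q (PS e R) := by
    rw [Finset.disjoint_left]
    intro p hp hp'
    rw [hQdef, Finset.mem_filter] at hp
    exact (mem_PS.1 hp').2.2 hp.2.2
  have hQ : Q ⊆ e.primeFactors := by
    intro p hp
    rw [hQdef, Finset.mem_filter] at hp
    rw [Nat.mem_primeFactors]
    exact ⟨hp.2.1, hp.2.2, by omega⟩
  have hQp : ∀ q ∈ Q, q.Prime := fun q hq => Nat.prime_of_mem_primeFactors (hQ hq)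
  have hSp : ∀ q ∈ PS e R, q.Prime := fun q hq => (mem_PS.1 hq).2.1
  have h1 := G_remove (PS e R) Q hSp hQp hd R
  have hpr : ∀ p ∈ (range (R + 1)).filter Nat.Prime, p.Prime :=
    fun p hp => (Finset.mem_filter.1 hp).2
  have h2 := TH_le_G _ hpr R
  rw [T_primes H R (R + 1) (by omega)] at h2
  rw [hall] at h1
  have h3 : Real.log (R + 1) ≤ ∑ k ∈ Ioc 0 R, H k := by
    have h4 := log_add_one_le_harmonic R
    have h5 : ((harmonic R : ℚ) : ℝ) = ∑ k ∈ Ioc 0 R, H k := by
      rw [harmonic_eq_sum_Icc]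
      push_cast
      have : Icc 1 R = Ioc 0 R := by
        ext k; rw [Finset.mem_Icc, Finset.mem_Ioc]; omega
      rw [this]
      apply Finset.sum_congr rfl
      intro k _
      unfold H
      rw [one_div]
    rw [← h5]
    push_cast at h4
    exact h4
  have h4 : 0 ≤ G (PS e R) one1 R := by
    unfold G
    apply Finset.sum_nonneg
    intro D hD
    exact (g_pos (P := PS e R) (fun q _ => le_refl 1) (fun q hq => (hSp q hq).one_lt)
      (mem_fam.1 hD).1).le
  have h5 := mul_le_mul_of_nonneg_right (prod_inv_le e he Q hQ) h4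
  linarith

/-- residues `x` mod `p` with `p ∣ (T + x) e + 1`. -/
def ZZ (T e p : ℕ) : Finset ℕ := (range p).filter (fun x => p ∣ (T + x) * e + 1)

theorem card_ZZ (T e p : ℕ) (hp : p.Prime) (he : ¬ p ∣ e) : (ZZ T e p).card = 1 := by
  have : Fact p.Prime := ⟨hp⟩
  have he0 : (e : ZMod p) ≠ 0 := by
    rw [Ne, ZMod.natCast_eq_zero_iff]; exact he
  set z : ZMod p := -(e : ZMod p)⁻¹ - (T : ZMod p) with hz
  have hkey : ∀ x : ℕ, p ∣ (T + x) * e + 1 ↔ (x : ZMod p) = z := by
    intro x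
    rw [← ZMod.natCast_eq_zero_iff]
    push_cast
    constructor
    · intro h
      have h1 : ((T : ZMod p) + x) = -(e : ZMod p)⁻¹ := by
        have h2 : ((T : ZMod p) + x) * e = -1 := by linear_combination h
        calc ((T : ZMod p) + x) = ((T : ZMod p) + x) * e * (e : ZMod p)⁻¹ := by
              rw [mul_assoc, mul_inv_cancel₀ he0, mul_one]
          _ = _ := by rw [h2]; ring
      rw [hz, ← h1]; ring
    · intro h
      rw [h, hz]
      have : ((T : ZMod p) + (-(e : ZMod p)⁻¹ - (T : ZMod p))) * e + 1 =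
        1 - (e : ZMod p)⁻¹ * e := by ring
      rw [this, inv_mul_cancel₀ he0]; ring
  have : ZZ T e p = {z.val} := by
    ext x
    unfold ZZ
    rw [Finset.mem_filter, Finset.mem_range, Finset.mem_singleton, hkey]
    constructor
    · rintro ⟨h1, h2⟩
      rw [← h2, ZMod.val_natCast_of_lt h1]
    · rintro rfl
      refine ⟨ZMod.val_lt z, ZMod.natCast_zmod_val z⟩
  rw [this, Finset.card_singleton]

theorem dvd_iff_mod (T e p s : ℕ) (hp : 0 < p) :
    p ∣ (T + s) * e + 1 ↔ s % p ∈ ZZ T e p := by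
  unfold ZZ
  rw [Finset.mem_filter, Finset.mem_range]
  have h : (T + s) * e + 1 ≡ (T + s % p) * e + 1 [MOD p] := by
    apply Nat.ModEq.add_right
    apply Nat.ModEq.mul_right
    apply Nat.ModEq.add_left
    exact (Nat.mod_modEq s p).symm
  rw [h.dvd_iff (dvd_refl p)]
  constructor
  · intro h1; exact ⟨Nat.mod_lt _ hp, h1⟩
  · intro h1; exact h1.2

theorem sieve_step (T e R : ℕ) (he : 1 ≤ e) (hR : 1 ≤ R) (hRT : R ≤ T) :
    (((Finset.Ico T (2 * T)).filter (fun t => (t * e + 1).Prime)).card : ℝ) ≤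
      T / G (PS e R) one1 R + (R : ℝ) ^ 4 := by
  classical
  have hSp : ∀ q ∈ PS e R, q.Prime := fun q hq => (mem_PS.1 hq).2.1
  have h := selberg_bound (P := PS e R) (ρ := one1) (R := R) hSp hR (fun q _ => le_refl 1)
    (fun q hq => (hSp q hq).one_lt) (range T) (fun p s => p ∣ (T + s) * e + 1) (T : ℝ) ?_
  · refine le_trans ?_ h
    rw [Nat.cast_le]
    apply Finset.card_le_card_of_injOn (fun t => t - T)
    · intro t ht
      rw [Finset.mem_coe, Finset.mem_filter, Finset.mem_Ico] at ht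
      rw [Finset.mem_coe, Finset.mem_filter, Finset.mem_range]
      refine ⟨by dsimp only; omega, ?_⟩
      intro p hp hdvd
      have e1 : T + (t - T) = t := by omega
      dsimp only at hdvd
      rw [e1] at hdvd
      have h2 := mem_PS.1 hp
      rcases (Nat.dvd_prime ht.2).1 hdvd with h3 | h3
      · exact h2.2.1.one_lt.ne' h3
      · have h4 : T ≤ t * e := by nlinarith
        omega
    · intro t ht t' ht' htt
      rw [Finset.mem_coe, Finset.mem_filter, Finset.mem_Ico] at ht ht'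
      dsimp only at htt
      omega
  · intro D hD
    have hDp : ∀ p ∈ D, p.Prime := fun p hp => hSp p (hD hp)
    have h1 := Pool.Agent.Helper9.CountCRT.count_sets hDp (fun p => ZZ T e p)
      (fun p _ => Finset.filter_subset _ _) T
    have h2 : ∀ p ∈ D, (ZZ T e p).card = 1 := fun p hp =>
      card_ZZ T e p (hDp p hp) (mem_PS.1 (hD hp)).2.2
    have e1 : ∏ p ∈ D, ((ZZ T e p).card : ℝ) / p = w one1 D := by
      unfold w
      apply Finset.prod_congr rfl
      intro p hp
      rw [h2 p hp]; rfl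
    have e2 : ∏ p ∈ D, ((ZZ T e p).card : ℝ) = ∏ p ∈ D, ((one1 p : ℕ) : ℝ) := by
      apply Finset.prod_congr rfl
      intro p hp
      rw [h2 p hp]; rfl
    have e3 : ∀ s, (∀ p ∈ D, p ∣ (T + s) * e + 1) ↔ (∀ p ∈ D, s % p ∈ ZZ T e p) := by
      intro s
      constructor
      · intro h3 p hp; exact (dvd_iff_mod T e p s (hDp p hp).pos).1 (h3 p hp)
      · intro h3 p hp; exact (dvd_iff_mod T e p s (hDp p hp).pos).2 (h3 p hp)
    rw [e1, e2] at h1
    simp only [e3]
    convert h1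

theorem sieve_count : ∃ C : ℝ, 0 < C ∧ ∀ (T e : ℕ), 2 ≤ T → 1 ≤ e →
    (((Finset.Ico T (2 * T)).filter (fun t => (t * e + 1).Prime)).card : ℝ) ≤
      C * T * (e / φ e) / Real.log T := by
  refine ⟨10, by norm_num, ?_⟩
  intro T e hT he
  have hT2 : (2 : ℝ) ≤ T := by exact_mod_cast hT
  have hT0 : (0 : ℝ) < T := by linarith
  set y : ℝ := (T : ℝ) ^ (1 / 5 : ℝ) with hy
  have hy1 : 1 ≤ y := Real.one_le_rpow (by linarith) (by norm_num)
  have hy5 : y ^ 5 = T := by
    rw [hy, ← Real.rpow_natCast, ← Real.rpow_mul hT0.le]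
    norm_num
  set R : ℕ := ⌊y⌋₊ with hRdef
  have hR1 : 1 ≤ R := Nat.one_le_floor_iff _ |>.2 hy1 
  have hRy : (R : ℝ) ≤ y := Nat.floor_le (by linarith)
  have hyR : y < R + 1 := Nat.lt_floor_add_one y
  have hRT : R ≤ T := by
    have h1 : y ≤ y ^ 5 := by
      calc y = y ^ 1 := (pow_one y).symm
        _ ≤ y ^ 5 := pow_le_pow_right₀ hy1 (by norm_num)
    have h2 : (R : ℝ) ≤ T := by rw [← hy5]; linarith
    exact_mod_cast h2
  have h1 := sieve_step T e R he hR1 hRT
  have h2 := log_le_G e R he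
  have hlogT : 0 < Real.log T := Real.log_pos (by linarith)
  have hlogy : Real.log T = 5 * Real.log y := by
    rw [← hy5, Real.log_pow]; norm_num
  have hlogy0 : 0 < Real.log y := by linarith
  have hlogR : Real.log y ≤ Real.log (R + 1) := Real.log_le_log (by linarith) hyR.le
  have hphi : (0 : ℝ) < φ e := by exact_mod_cast Nat.totient_pos.2 (by omega)
  have he0 : (0 : ℝ) < e := by exact_mod_cast he
  have hq : 1 ≤ (e : ℝ) / φ e := by
    rw [le_div_iff₀ hphi, one_mul]
    exact_mod_cast Nat.totient_le e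
  have hq0 : 0 < (e : ℝ) / φ e := by linarith
  set q : ℝ := (e : ℝ) / φ e with hqdef
  have hG : 0 < G (PS e R) one1 R := by
    by_contra hcon
    have : q * G (PS e R) one1 R ≤ 0 := by nlinarith
    linarith
  -- main term
  have h3 : (T : ℝ) / G (PS e R) one1 R ≤ 5 * T * q / Real.log T := by
    rw [div_le_div_iff₀ hG hlogT]
    have h4 : Real.log T ≤ 5 * (q * G (PS e R) one1 R) := by linarith
    calc (T : ℝ) * Real.log T ≤ T * (5 * (q * G (PS e R) one1 R)) :=
          mul_le_mul_of_nonneg_left h4 hT0.le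
      _ = _ := by ring
  -- error term
  have h5 : (R : ℝ) ^ 4 ≤ 5 * T * q / Real.log T := by
    have h6 : (R : ℝ) ^ 4 ≤ y ^ 4 := pow_le_pow_left₀ (by positivity) hRy 4
    have h7 : Real.log y ≤ y := by
      have := Real.log_le_sub_one_of_pos (show 0 < y by linarith)
      linarith
    rw [le_div_iff₀ hlogT]
    have h8 : y ^ 4 * Real.log T ≤ 5 * T := by
      rw [hlogy, ← hy5]
      have : y ^ 4 * Real.log y ≤ y ^ 4 * y := mul_le_mul_of_nonneg_left h7 (by positivity)
      nlinarith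
    have h9 : (R : ℝ) ^ 4 * Real.log T ≤ y ^ 4 * Real.log T :=
      mul_le_mul_of_nonneg_right h6 hlogT.le
    have h10 : 5 * (T : ℝ) ≤ 5 * T * q := by nlinarith
    linarith
  have h11 : 10 * (T : ℝ) * q / Real.log T = 5 * T * q / Real.log T + 5 * T * q / Real.log T := by
    ring
  rw [h11]
  linarith

end Pool.Agent.TN
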